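import Pool.Agent.H36.MMed

open Pool.Agent.H36.MMed

theorem Pool.Agent.Results.MP_8f56b8_lc.OracleHard.result :
    ¬ ∃ (Alg : ∀ m : ℕ, List (Finset (Fin m)) → RTree (Fin m)) (p : Polynomial ℕ),
      ∀ (m : ℕ) (M : Matroid (Fin m)) (F : List (Finset (Fin m))), M.E = Set.univ →
        ((Alg m F).run M).2 ≤ p.eval (m + F.length) ∧
          ∀ H, Phi M F ((Alg m F).run M).1 ≤ Phi M F H :=
  main
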